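import Mathlib

set_option autoImplicit false

/-!
# q-deformations of simplicial complexes: the characteristic polynomial need not be polynomial in q

For a simplicial complex `Δ` on `[ℓ]` and a finite field `K` with `q` elements, the generalized
`q`-deformation is the arrangement of all kernels of `∑_{i ∈ s} a_i x_i` with `s` a nonempty face
and all `a_i ≠ 0`.  We show that there is a graph `G` (on forty vertices) such that for the clique
complex of `G` no polynomial in two variables interpolates the characteristic polynomials over all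
prime powers `q`.

Outline.  By the finite field method the value at `t = q^3` counts the maps from the vertices to
`K^3` for which every clique is linearly independent.  A signed sum of these counts over a family of
graphs on the same forty vertices (inclusion-exclusion over optional edges) counts exactly the
configurations realizing the Fano plane.  There are none for odd `q`, but there are some for
`q = 2`; so the signed sum, hence one of its terms, is not a polynomial in `q`.
-/

namespace Pool.Agent.Results.MP_6fdec2_co.CliqueFano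

open Polynomial

/-- A simplicial complex with vertex set `[ℓ]`: a family of subsets closed under taking subsets and
containing every singleton. -/
structure SimpComplex (ℓ : ℕ) where
  /-- the faces -/
  faces : Set (Finset (Fin ℓ))
  down_closed : ∀ s ∈ faces, ∀ t, t ⊆ s → t ∈ faces
  singleton_mem : ∀ i, {i} ∈ faces

/-- The clique complex of a graph. -/
def cliqueComplex {ℓ : ℕ} (G : SimpleGraph (Fin ℓ)) : SimpComplex ℓ where
  faces := {s | G.IsClique (s : Set (Fin ℓ))}
  down_closed := fun _ hs _ hts => hs.subset (Finset.coe_subset.mpr hts)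
  singleton_mem := fun i => by
    simp

/-- The generalized `q`-deformation of `Δ` over the field `K`: the set of all hyperplanes
`ker (∑_{i ∈ s} a_i x_i)` for nonempty faces `s` and nonzero coefficients `a_i`. -/
def deformation {ℓ : ℕ} (Δ : SimpComplex ℓ) (K : Type) [Field K] :
    Set (Submodule K (Fin ℓ → K)) :=
  {H | ∃ s ∈ Δ.faces, s.Nonempty ∧ ∃ a : Fin ℓ → K, (∀ i ∈ s, a i ≠ 0) ∧
    H = LinearMap.ker (∑ i ∈ s, a i • (LinearMap.proj i : (Fin ℓ → K) →ₗ[K] K))}

/-- The characteristic polynomial `∑_{I ⊆ A} (-1)^|I| t^{dim ⋂ I}` of a (finite) set `A` of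
subspaces of `K^ℓ`, where `K` is a finite field. -/
noncomputable def charPoly {ℓ : ℕ} {K : Type} [Field K] [Finite K]
    (A : Set (Submodule K (Fin ℓ → K))) : ℤ[X] :=
  ∑ I ∈ (Set.toFinite A).toFinset.powerset,
    (-1) ^ I.card * X ^ Module.finrank K (↥(⨅ H ∈ I, H : Submodule K (Fin ℓ → K)))

/-- `Δ` is interpolated if there is a polynomial `P(q,t)` in two variables (with complex
coefficients; `q` is the inner and `t` the outer variable) such that for every finite field `K` with
`q` elements the characteristic polynomial of the `q`-deformation of `Δ` over `K` is `P(q,t)`. -/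
def Interpolated {ℓ : ℕ} (Δ : SimpComplex ℓ) : Prop :=
  ∃ P : ℂ[X][X], ∀ (K : Type) [Field K] [Finite K],
    (charPoly (deformation Δ K)).map (Int.castRingHom ℂ) =
      P.map (Polynomial.evalRingHom (Nat.card K : ℂ))

/-! ### Finite field method -/

section FiniteField

variable {ℓ : ℕ} {K : Type} [Field K] [Finite K]

lemma eval_charPoly (A : Set (Submodule K (Fin ℓ → K))) :
    (charPoly A).eval ((Nat.card K : ℤ) ^ 3) =
      (Nat.card {y : Fin 3 → (Fin ℓ → K) // ∀ H ∈ A, ¬ ∀ j, y j ∈ H} : ℤ) := by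
  classical
  have : Fintype K := Fintype.ofFinite K
  set B := (Set.toFinite A).toFinset with hB
  have hmem : ∀ H, H ∈ B ↔ H ∈ A := by
    intro H
    rw [hB]
    exact Set.Finite.mem_toFinset _
  have hcard : ∀ W : Submodule K (Fin ℓ → K),
      ((Nat.card K : ℤ) ^ 3) ^ Module.finrank K W
        = ∑ y : Fin 3 → (Fin ℓ → K), if (∀ j, y j ∈ W) then 1 else 0 := by
    intro W
    rw [Finset.sum_boole]
    have h1 : Nat.card W = Nat.card K ^ Module.finrank K W := Module.natCard_eq_pow_finrank
    have h2 : (Finset.univ.filter (fun y : Fin 3 → (Fin ℓ → K) => ∀ j, y j ∈ W)).card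
        = Nat.card (Fin 3 → W) := by
      rw [← Fintype.card_subtype, ← Nat.card_eq_fintype_card]
      apply Nat.card_congr
      exact {
        toFun := fun y j => ⟨y.1 j, y.2 j⟩
        invFun := fun z => ⟨fun j => (z j).1, fun j => (z j).2⟩
        left_inv := fun y => rfl
        right_inv := fun z => rfl }
    rw [h2, Nat.card_fun, Nat.card_fin, h1]
    push_cast
    rw [← pow_mul, ← pow_mul, mul_comm]
  have h3 : (charPoly A).eval ((Nat.card K : ℤ) ^ 3) =
      ∑ I ∈ B.powerset, (-1) ^ I.card *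
        ((Nat.card K : ℤ) ^ 3) ^ Module.finrank K (↥(⨅ H ∈ I, H : Submodule K (Fin ℓ → K))) := by
    unfold charPoly
    rw [Polynomial.eval_finsetSum]
    apply Finset.sum_congr rfl
    intro I _
    simp
  rw [h3]
  simp_rw [hcard, Finset.mul_sum]
  rw [Finset.sum_comm]
  have h4 : ∀ y : Fin 3 → (Fin ℓ → K),
      (∑ I ∈ B.powerset, (-1 : ℤ) ^ I.card *
        (if (∀ j, y j ∈ (⨅ H ∈ I, H : Submodule K (Fin ℓ → K))) then 1 else 0)) =
      if (∀ H ∈ A, ¬ ∀ j, y j ∈ H) then 1 else 0 := by
    intro y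
    have h5 : ∀ I : Finset (Submodule K (Fin ℓ → K)),
        (∀ j, y j ∈ (⨅ H ∈ I, H : Submodule K (Fin ℓ → K))) ↔ ∀ H ∈ I, ∀ j, y j ∈ H := by
      intro I
      simp only [Submodule.mem_iInf]
      tauto
    simp_rw [h5, mul_ite, mul_one, mul_zero]
    rw [← Finset.sum_filter]
    have h6 : B.powerset.filter (fun I => ∀ H ∈ I, ∀ j, y j ∈ H)
        = (B.filter (fun H => ∀ j, y j ∈ H)).powerset := by
      ext I
      simp only [Finset.mem_filter, Finset.mem_powerset, Finset.subset_iff]
      constructor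
      · rintro ⟨h1, h2⟩ H hH
        exact ⟨h1 hH, h2 H hH⟩
      · intro h
        exact ⟨fun H hH => (h hH).1, fun H hH => (h hH).2⟩
    rw [h6, Finset.sum_powerset_neg_one_pow_card]
    congr 1
    rw [Finset.filter_eq_empty_iff]
    simp only [hmem]
  rw [Finset.sum_congr rfl (fun y _ => h4 y), Finset.sum_boole, ← Fintype.card_subtype,
    ← Nat.card_eq_fintype_card]

end FiniteField

/-! ### Good configurations -/

section Good

variable {V : Type} {K : Type} [Field K]

/-- A configuration of vectors such that no relation with all coefficients nonzero is supported on a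
nonempty clique. -/
def Good (G : SimpleGraph V) (x : V → Fin 3 → K) : Prop :=
  ∀ s : Finset V, G.IsClique (s : Set V) → s.Nonempty → ∀ a : V → K, (∀ i ∈ s, a i ≠ 0) →
    ∑ i ∈ s, a i • x i ≠ 0

lemma Good.anti {G H : SimpleGraph V} (h : G ≤ H) {x : V → Fin 3 → K} (hx : Good H x) :
    Good G x := by
  intro s hs
  exact hx s (hs.mono h)

lemma good_congr {W : Type} (e : V ≃ W) (G : SimpleGraph V) (x : V → Fin 3 → K) :
    Good (G.comap e.symm) (x ∘ e.symm) ↔ Good G x := by
  classical
  constructor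
  · intro h s hs hne a ha
    have h1 := h (s.map e.toEmbedding) ?_ (by simpa using hne) (a ∘ e.symm) ?_
    · rw [Finset.sum_map] at h1
      simpa using h1
    · intro u hu v hv huv
      simp only [Finset.coe_map, Set.mem_image, Finset.mem_coe, Equiv.coe_toEmbedding] at hu hv
      obtain ⟨u', hu', rfl⟩ := hu
      obtain ⟨v', hv', rfl⟩ := hv
      have h2 : u' ≠ v' := fun h => huv (by rw [h])
      have h3 := hs hu' hv' h2
      change G.Adj (e.symm (e u')) (e.symm (e v'))
      simpa using h3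
    · intro i hi
      simp only [Finset.mem_map, Equiv.coe_toEmbedding] at hi
      obtain ⟨j, hj, rfl⟩ := hi
      simpa using ha j hj
  · intro h s hs hne a ha
    have h1 := h (s.map e.symm.toEmbedding) ?_ (by simpa using hne) (a ∘ e) ?_
    · rw [Finset.sum_map] at h1
      simpa using h1
    · intro u hu v hv huv
      simp only [Finset.coe_map, Set.mem_image, Finset.mem_coe, Equiv.coe_toEmbedding] at hu hv
      obtain ⟨u', hu', rfl⟩ := hu
      obtain ⟨v', hv', rfl⟩ := hv
      have h2 : u' ≠ v' := fun h => huv (by rw [h])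
      exact hs hu' hv' h2
    · intro i hi
      simp only [Finset.mem_map, Equiv.coe_toEmbedding] at hi
      obtain ⟨j, hj, rfl⟩ := hi
      simpa using ha j hj

lemma good_iff {ℓ : ℕ} (G : SimpleGraph (Fin ℓ)) (y : Fin 3 → (Fin ℓ → K)) :
    (∀ H ∈ deformation (cliqueComplex G) K, ¬ ∀ j, y j ∈ H) ↔ Good G (fun i j => y j i) := by
  constructor
  · intro h s hs hne a ha hsum
    apply h (LinearMap.ker (∑ i ∈ s, a i • (LinearMap.proj i : (Fin ℓ → K) →ₗ[K] K)))
    · exact ⟨s, hs, hne, a, ha, rfl⟩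
    · intro j
      rw [LinearMap.mem_ker]
      have := congrFun hsum j
      simpa [LinearMap.sum_apply] using this
  · rintro h H ⟨s, hs, hne, a, ha, rfl⟩ hH
    apply h s hs hne a ha
    ext j
    have := hH j
    rw [LinearMap.mem_ker] at this
    simpa [LinearMap.sum_apply] using this

lemma card_good_fin {ℓ : ℕ} [Finite K] (G : SimpleGraph (Fin ℓ)) :
    (charPoly (deformation (cliqueComplex G) K)).eval ((Nat.card K : ℤ) ^ 3) =
      (Nat.card {x : Fin ℓ → Fin 3 → K // Good G x} : ℤ) := by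
  rw [eval_charPoly]
  congr 1
  apply Nat.card_congr
  refine Equiv.subtypeEquiv (Equiv.piComm (fun (_ : Fin 3) (_ : Fin ℓ) => K)) ?_
  intro y
  rw [good_iff]
  rfl

lemma card_good_congr {W : Type} (e : V ≃ W) (G : SimpleGraph V) :
    Nat.card {x : W → Fin 3 → K // Good (G.comap e.symm) x} = Nat.card {x : V → Fin 3 → K // Good G x} := by
  apply Nat.card_congr
  refine (Equiv.subtypeEquiv (Equiv.arrowCongr e (Equiv.refl _)) ?_).symm
  intro x
  rw [← good_congr e G x]
  rfl

end Good

/-! ### The gadget graphs -/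

/-- The eleven constraints on seven points `0,...,6`: the first seven triples are required to be
dependent, the last four to be independent. -/
def pt : Fin 11 → Fin 3 → Fin 7 :=
  ![![0, 4, 1], ![2, 4, 3], ![0, 5, 2], ![1, 5, 3], ![0, 6, 3], ![1, 6, 2], ![4, 5, 6],
    ![0, 1, 2], ![0, 1, 3], ![0, 2, 3], ![1, 2, 3]]

lemma pt_inj : ∀ c j j', pt c j = pt c j' → j = j' := by decide

/-- Vertices: seven main vertices and three slots for each of the eleven constraints. -/
abbrev V := Fin 7 ⊕ (Fin 11 × Fin 3)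

/-- Optional edges: one for each of the seven dependency constraints (joining slots `0` and `2`)
and one for each slot (joining it with its main vertex). -/
abbrev T := Fin 7 ⊕ (Fin 11 × Fin 3)

/-- Adjacency in the graph with the set `S` of optional edges switched on. -/
def adj (S : Finset T) : V → V → Prop
  | .inl _, .inl _ => False
  | .inl i, .inr (c, j) => pt c j = i ∧ Sum.inr (c, j) ∈ S
  | .inr (c, j), .inl i => pt c j = i ∧ Sum.inr (c, j) ∈ S
  | .inr (c, j), .inr (c', j') =>
      c = c' ∧ j ≠ j' ∧ (j = 1 ∨ j' = 1 ∨ 7 ≤ c.val ∨ ∃ d : Fin 7, d.val = c.val ∧ Sum.inl d ∈ S)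

/-- The graph with the set `S` of optional edges switched on. -/
def GG (S : Finset T) : SimpleGraph V where
  Adj := adj S
  symm := ⟨by
    rintro (i | ⟨c, j⟩) (i' | ⟨c', j'⟩) h
    · exact h
    · exact h
    · exact h
    · obtain ⟨rfl, h1, h2⟩ := h
      exact ⟨rfl, h1.symm, by tauto⟩⟩
  loopless := ⟨by
    rintro (i | ⟨c, j⟩) h
    · exact h
    · exact h.2.1 rfl⟩

lemma GG_mono {S S' : Finset T} (h : S ⊆ S') : GG S ≤ GG S' := by
  intro u v huv
  change adj S u v at huv
  change adj S' u v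
  match u, v, huv with
  | .inl i, .inr (c, j), huv => exact ⟨huv.1, h huv.2⟩
  | .inr (c, j), .inl i, huv => exact ⟨huv.1, h huv.2⟩
  | .inr (c, j), .inr (c', j'), huv =>
    obtain ⟨h1, h2, h3⟩ := huv
    refine ⟨h1, h2, ?_⟩
    rcases h3 with h3 | h3 | h3 | ⟨d, hd, hS⟩
    · exact Or.inl h3
    · exact Or.inr (Or.inl h3)
    · exact Or.inr (Or.inr (Or.inl h3))
    · exact Or.inr (Or.inr (Or.inr ⟨d, hd, h hS⟩))

/-- A clique containing a main vertex and one of its slots contains nothing else. -/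
lemma clique_eq {S : Finset T} {s : Finset V} (hs : (GG S).IsClique (s : Set V))
    {c : Fin 11} {j : Fin 3} (h1 : Sum.inl (pt c j) ∈ s) (h2 : Sum.inr (c, j) ∈ s) (w : V)
    (hw : w ∈ s) : w = Sum.inl (pt c j) ∨ w = Sum.inr (c, j) := by
  by_contra hcon
  push Not at hcon
  have a1 : adj S w (Sum.inl (pt c j)) := hs hw h1 hcon.1
  have a2 : adj S w (Sum.inr (c, j)) := hs hw h2 hcon.2
  match w, a1, a2 with
  | .inr (c', j'), a1, a2 =>
    obtain ⟨h3, _⟩ := a1
    obtain ⟨h4, h5, _⟩ := a2
    subst h4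
    exact h5 (pt_inj _ _ _ h3)

/-- A clique containing two slots of the same constraint contains only slots of this constraint. -/
lemma clique_slots {S : Finset T} {s : Finset V} (hs : (GG S).IsClique (s : Set V))
    {c : Fin 11} {j j' : Fin 3} (hj : j ≠ j') (h1 : Sum.inr (c, j) ∈ s) (h2 : Sum.inr (c, j') ∈ s)
    (w : V) (hw : w ∈ s) : ∃ k, w = Sum.inr (c, k) := by
  match w, hw with
  | .inl i, hw =>
    have a1 : adj S (Sum.inl i) (Sum.inr (c, j)) := hs hw h1 (by simp)
    have a2 : adj S (Sum.inl i) (Sum.inr (c, j')) := hs hw h2 (by simp)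
    exact absurd (pt_inj _ _ _ (a1.1.trans a2.1.symm)) hj
  | .inr (c', k), hw =>
    by_cases h : (Sum.inr (c', k) : V) = Sum.inr (c, j)
    · exact ⟨j, h⟩
    · have a1 : adj S (Sum.inr (c', k)) (Sum.inr (c, j)) := hs hw h1 h
      obtain ⟨h3, _⟩ := a1
      subst h3
      exact ⟨k, rfl⟩

lemma clique_cases {S : Finset T} {s : Finset V} (hs : (GG S).IsClique (s : Set V)) :
    (GG ∅).IsClique (s : Set V) ∨ ∃ e ∈ S, (GG {e}).IsClique (s : Set V) := by
  classical
  by_cases h0 : (GG ∅).IsClique (s : Set V)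
  · exact Or.inl h0
  right
  rw [SimpleGraph.isClique_iff, Set.Pairwise] at h0
  push Not at h0
  obtain ⟨u, hu, v, hv, huv, hadj⟩ := h0
  have hS : adj S u v := hs hu hv huv
  have key : ∀ (c : Fin 11) (j : Fin 3), Sum.inl (pt c j) ∈ s → Sum.inr (c, j) ∈ s →
      Sum.inr (c, j) ∈ S → ∃ e ∈ S, (GG {e}).IsClique (s : Set V) := by
    intro c j h1 h2 h3
    refine ⟨_, h3, ?_⟩
    intro w hw w' hw' hne
    change adj _ w w'
    rcases clique_eq hs h1 h2 w hw with rfl | rfl <;>
      rcases clique_eq hs h1 h2 w' hw' with rfl | rfl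
    · exact absurd rfl hne
    · exact ⟨rfl, Finset.mem_singleton_self _⟩
    · exact ⟨rfl, Finset.mem_singleton_self _⟩
    · exact absurd rfl hne
  match u, v, hu, hv, huv, hadj, hS with
  | .inl i, .inr (c, j), hu, hv, huv, hadj, hS =>
    obtain ⟨h1, h2⟩ := hS
    subst h1
    exact key c j hu hv h2
  | .inr (c, j), .inl i, hu, hv, huv, hadj, hS =>
    obtain ⟨h1, h2⟩ := hS
    subst h1
    exact key c j hv hu h2
  | .inr (c, j), .inr (c', j'), hu, hv, huv, hadj, hS =>
    obtain ⟨h1, h2, h3⟩ := hS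
    subst h1
    have hd : ∃ d : Fin 7, d.val = c.val ∧ Sum.inl d ∈ S := by
      rcases h3 with h3 | h3 | h3 | h3
      · exact absurd (show adj ∅ (Sum.inr (c, j)) (Sum.inr (c, j')) from
          ⟨rfl, h2, Or.inl h3⟩) hadj
      · exact absurd (show adj ∅ (Sum.inr (c, j)) (Sum.inr (c, j')) from
          ⟨rfl, h2, Or.inr (Or.inl h3)⟩) hadj
      · exact absurd (show adj ∅ (Sum.inr (c, j)) (Sum.inr (c, j')) from
          ⟨rfl, h2, Or.inr (Or.inr (Or.inl h3))⟩) hadj
      · exact h3
    obtain ⟨d, hd, hdS⟩ := hd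
    refine ⟨_, hdS, ?_⟩
    intro w hw w' hw' hne
    change adj _ w w'
    obtain ⟨k, rfl⟩ := clique_slots hs h2 hu hv w hw
    obtain ⟨k', rfl⟩ := clique_slots hs h2 hu hv w' hw'
    refine ⟨rfl, ?_, Or.inr (Or.inr (Or.inr ⟨d, hd, Finset.mem_singleton_self _⟩))⟩
    rintro rfl
    exact hne rfl

section Counting

variable {K : Type} [Field K]

lemma good_GG_iff (S : Finset T) (x : V → Fin 3 → K) :
    Good (GG S) x ↔ Good (GG ∅) x ∧ ∀ e ∈ S, Good (GG {e}) x := by
  constructor
  · intro h
    refine ⟨h.anti (GG_mono (Finset.empty_subset _)), fun e he => h.anti (GG_mono ?_)⟩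
    exact Finset.singleton_subset_iff.mpr he
  · rintro ⟨h0, h1⟩ s hs
    rcases clique_cases hs with h | ⟨e, he, h⟩
    · exact h0 s h
    · exact h1 e he s h

/-- A configuration satisfying all constraints exactly. -/
def Exact (x : V → Fin 3 → K) : Prop := Good (GG ∅) x ∧ ∀ e, ¬ Good (GG {e}) x

lemma signed_sum [Finite K] :
    ∑ S : Finset T, (-1 : ℤ) ^ S.card * (Nat.card {x : V → Fin 3 → K // Good (GG S) x} : ℤ) =
      (Nat.card {x : V → Fin 3 → K // Exact x} : ℤ) := by
  classical
  have : Fintype K := Fintype.ofFinite K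
  have h1 : ∀ p : (V → Fin 3 → K) → Prop, (Nat.card {x : V → Fin 3 → K // p x} : ℤ) =
      ∑ x : V → Fin 3 → K, if p x then 1 else 0 := by
    intro p
    rw [Finset.sum_boole, ← Fintype.card_subtype, ← Nat.card_eq_fintype_card]
  simp_rw [h1, Finset.mul_sum]
  rw [Finset.sum_comm]
  apply Finset.sum_congr rfl
  intro x _
  by_cases h0 : Good (GG ∅) x
  · have h2 : ∀ S : Finset T, ((-1 : ℤ) ^ S.card * if Good (GG S) x then 1 else 0) =
        if S ⊆ Finset.univ.filter (fun e => Good (GG {e}) x) then (-1 : ℤ) ^ S.card else 0 := by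
      intro S
      have h3 : Good (GG S) x ↔ S ⊆ Finset.univ.filter (fun e => Good (GG {e}) x) := by
        rw [good_GG_iff]
        simp [Finset.subset_iff, h0]
      simp only [h3, mul_ite, mul_one, mul_zero]
    rw [Finset.sum_congr rfl (fun S _ => h2 S), ← Finset.sum_filter]
    have h4 : (Finset.univ.filter (fun S : Finset T =>
        S ⊆ Finset.univ.filter (fun e => Good (GG {e}) x))) =
        (Finset.univ.filter (fun e => Good (GG {e}) x)).powerset := by
      ext S
      simp
    rw [h4, Finset.sum_powerset_neg_one_pow_card]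
    congr 1
    rw [Finset.filter_eq_empty_iff]
    simp [Exact, h0]
  · have h2 : ∀ S : Finset T, ¬ Good (GG S) x := by
      intro S h
      exact h0 ((good_GG_iff S x).mp h).1
    simp [h2, Exact]

end Counting

/-! ### No exact configuration outside characteristic two -/

section Algebra

variable {K : Type} [Field K] {M : Type} [AddCommGroup M] [Module K M]

/-- Linear independence of three vectors, spelled out. -/
def Indep (K : Type) [Field K] {M : Type} [AddCommGroup M] [Module K M] (u v w : M) : Prop :=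
  ∀ a b c : K, a • u + b • v + c • w = 0 → a = 0 ∧ b = 0 ∧ c = 0

lemma dep_mid {U X W : M} (h : ∀ a b : K, a • U + b • W = 0 → a = 0 ∧ b = 0)
    (hd : ¬ Indep K U X W) : ∃ a b : K, X = a • U + b • W := by
  unfold Indep at hd
  push Not at hd
  obtain ⟨a, e, b, hrel, hne⟩ := hd
  have he : e ≠ 0 := by
    rintro rfl
    rw [zero_smul, add_zero] at hrel
    obtain ⟨h1, h2⟩ := h a b hrel
    exact hne h1 rfl h2
  refine ⟨-(e⁻¹ * a), -(e⁻¹ * b), ?_⟩
  have h3 : e • X = -(a • U) - b • W := by
    rw [← sub_eq_zero]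
    rw [← hrel]
    abel
  calc X = e⁻¹ • (e • X) := by rw [smul_smul, inv_mul_cancel₀ he, one_smul]
    _ = _ := by
      rw [h3]
      module

lemma fano_algebra (A B C D E F G : M) (h2 : (2 : K) ≠ 0) (hE : E ≠ 0) (hF : F ≠ 0) (hG : G ≠ 0)
    (iABC : Indep K A B C) (iABD : Indep K A B D) (iACD : Indep K A C D) (iBCD : Indep K B C D)
    (d0 : ¬ Indep K A E B) (d1 : ¬ Indep K C E D) (d2 : ¬ Indep K A F C) (d3 : ¬ Indep K B F D)
    (d4 : ¬ Indep K A G D) (d5 : ¬ Indep K B G C) (d6 : ¬ Indep K E F G) : False := by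
  have iAB : ∀ a b : K, a • A + b • B = 0 → a = 0 ∧ b = 0 := by
    intro a b h
    obtain ⟨h1, h2, _⟩ := iABC a b 0 (by rw [h]; simp)
    exact ⟨h1, h2⟩
  have iAC : ∀ a b : K, a • A + b • C = 0 → a = 0 ∧ b = 0 := by
    intro a b h
    obtain ⟨h1, _, h2⟩ := iABC a 0 b (by rw [← h]; simp)
    exact ⟨h1, h2⟩
  have iBC : ∀ a b : K, a • B + b • C = 0 → a = 0 ∧ b = 0 := by
    intro a b h
    obtain ⟨_, h1, h2⟩ := iABC 0 a b (by rw [← h]; simp)
    exact ⟨h1, h2⟩
  have iCD : ∀ a b : K, a • C + b • D = 0 → a = 0 ∧ b = 0 := by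
    intro a b h
    obtain ⟨_, h1, h2⟩ := iACD 0 a b (by rw [← h]; simp)
    exact ⟨h1, h2⟩
  have iBD : ∀ a b : K, a • B + b • D = 0 → a = 0 ∧ b = 0 := by
    intro a b h
    obtain ⟨_, h1, h2⟩ := iABD 0 a b (by rw [← h]; simp)
    exact ⟨h1, h2⟩
  have iAD : ∀ a b : K, a • A + b • D = 0 → a = 0 ∧ b = 0 := by
    intro a b h
    obtain ⟨h1, _, h2⟩ := iABD a 0 b (by rw [← h]; simp)
    exact ⟨h1, h2⟩
  obtain ⟨a1, b1, e1⟩ := dep_mid iAB d0
  obtain ⟨c1, t1, e2⟩ := dep_mid iCD d1
  obtain ⟨a2, c2, f1⟩ := dep_mid iAC d2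
  obtain ⟨b2, t2, f2⟩ := dep_mid iBD d3
  obtain ⟨a3, t3, g1⟩ := dep_mid iAD d4
  obtain ⟨b3, c3, g2⟩ := dep_mid iBC d5
  have ht1 : t1 ≠ 0 := by
    rintro rfl
    obtain ⟨h3, h4, _⟩ := iABC a1 b1 (-c1) (by
      have : a1 • A + b1 • B + -c1 • C = E - E := by
        conv_rhs =>
          congr
          · rw [e1]
          · rw [e2]
        module
      rw [this, sub_self])
    apply hE
    rw [e1, h3, h4]
    simp
  obtain ⟨α, β, γ, hD⟩ : ∃ α β γ : K, D = α • A + β • B + γ • C := by
    refine ⟨t1⁻¹ * a1, t1⁻¹ * b1, -(t1⁻¹ * c1), ?_⟩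
    have h3 : t1 • D = a1 • A + b1 • B - c1 • C := by
      rw [← e1, e2]
      abel
    calc D = t1⁻¹ • (t1 • D) := by rw [smul_smul, inv_mul_cancel₀ ht1, one_smul]
      _ = _ := by
        rw [h3]
        module
  have hα : α ≠ 0 := by
    rintro rfl
    obtain ⟨_, _, h3⟩ := iBCD β γ (-1) (by rw [hD]; module)
    simp at h3
  have hβ : β ≠ 0 := by
    rintro rfl
    obtain ⟨_, _, h3⟩ := iACD α γ (-1) (by rw [hD]; module)
    simp at h3
  have hγ : γ ≠ 0 := by
    rintro rfl
    obtain ⟨_, _, h3⟩ := iABD α β (-1) (by rw [hD]; module)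
    simp at h3
  -- coordinates of E, F, G
  obtain ⟨E1, E2, E3⟩ := iABC (a1 - t1 * α) (b1 - t1 * β) (-c1 - t1 * γ) (by
    have h3 : (a1 - t1 * α) • A + (b1 - t1 * β) • B + (-c1 - t1 * γ) • C
        = (a1 • A + b1 • B) - (c1 • C + t1 • (α • A + β • B + γ • C)) := by module
    rw [h3, ← hD, ← e1, ← e2, sub_self])
  obtain ⟨F1, F2, F3⟩ := iABC (a2 - t2 * α) (-b2 - t2 * β) (c2 - t2 * γ) (by
    have h3 : (a2 - t2 * α) • A + (-b2 - t2 * β) • B + (c2 - t2 * γ) • C
        = (a2 • A + c2 • C) - (b2 • B + t2 • (α • A + β • B + γ • C)) := by module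
    rw [h3, ← hD, ← f1, ← f2, sub_self])
  obtain ⟨G1, G2, G3⟩ := iABC (-a3 - t3 * α) (b3 - t3 * β) (c3 - t3 * γ) (by
    have h3 : (-a3 - t3 * α) • A + (b3 - t3 * β) • B + (c3 - t3 * γ) • C
        = (b3 • B + c3 • C) - (a3 • A + t3 • (α • A + β • B + γ • C)) := by module
    rw [h3, ← hD, ← g1, ← g2, sub_self])
  have ht2 : t2 ≠ 0 := by
    rintro rfl
    apply hF
    rw [f1]
    have h3 : a2 = 0 := by linear_combination F1
    have h4 : c2 = 0 := by linear_combination F3
    rw [h3, h4]
    simp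
  have ht3 : t3 ≠ 0 := by
    rintro rfl
    apply hG
    rw [g2]
    have h3 : b3 = 0 := by linear_combination G2
    have h4 : c3 = 0 := by linear_combination G3
    rw [h3, h4]
    simp
  unfold Indep at d6
  push Not at d6
  obtain ⟨e, f, g, hrel, hne⟩ := d6
  obtain ⟨H1, H2, H3⟩ := iABC (e * a1 + f * a2) (e * b1 + g * b3) (f * c2 + g * c3) (by
    rw [e1, f1, g2] at hrel
    rw [← hrel]
    module)
  have ha1 : a1 = t1 * α := by linear_combination E1
  have hb1 : b1 = t1 * β := by linear_combination E2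
  have ha2 : a2 = t2 * α := by linear_combination F1
  have hc2 : c2 = t2 * γ := by linear_combination F3
  have hb3 : b3 = t3 * β := by linear_combination G2
  have hc3 : c3 = t3 * γ := by linear_combination G3
  rw [ha1, ha2] at H1
  rw [hb1, hb3] at H2
  rw [hc2, hc3] at H3
  have K1 : e * t1 + f * t2 = 0 := by
    apply mul_right_cancel₀ hα
    linear_combination H1
  have K2 : e * t1 + g * t3 = 0 := by
    apply mul_right_cancel₀ hβ
    linear_combination H2
  have K3 : f * t2 + g * t3 = 0 := by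
    apply mul_right_cancel₀ hγ
    linear_combination H3
  have K4 : e * t1 = 0 := by
    apply mul_left_cancel₀ h2
    linear_combination K1 + K2 - K3
  have K5 : f * t2 = 0 := by linear_combination K1 - K4
  have K6 : g * t3 = 0 := by linear_combination K2 - K4
  have he : e = 0 := (mul_eq_zero.mp K4).resolve_right ht1
  have hf : f = 0 := (mul_eq_zero.mp K5).resolve_right ht2
  have hg : g = 0 := (mul_eq_zero.mp K6).resolve_right ht3
  exact hne he hf hg

end Algebra

section NoExact

variable {K : Type} [Field K]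

lemma pair_mem_of_eq {c : Fin 11} {j : Fin 3} {s : Finset V}
    (hs : (GG {Sum.inr (c, j)}).IsClique (s : Set V)) (h0 : ¬ (GG ∅).IsClique (s : Set V)) :
    Sum.inl (pt c j) ∈ s ∧ Sum.inr (c, j) ∈ s := by
  rw [SimpleGraph.isClique_iff, Set.Pairwise] at h0
  push Not at h0
  obtain ⟨u, hu, v, hv, huv, hadj⟩ := h0
  have hS : adj {Sum.inr (c, j)} u v := hs hu hv huv
  match u, v, hu, hv, huv, hadj, hS with
  | .inl i, .inr (c', j'), hu, hv, huv, hadj, hS =>
    obtain ⟨h1, h2⟩ := hS
    rw [Finset.mem_singleton] at h2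
    cases h2
    subst h1
    exact ⟨hu, hv⟩
  | .inr (c', j'), .inl i, hu, hv, huv, hadj, hS =>
    obtain ⟨h1, h2⟩ := hS
    rw [Finset.mem_singleton] at h2
    cases h2
    subst h1
    exact ⟨hv, hu⟩
  | .inr (c1, j1), .inr (c2, j2), hu, hv, huv, hadj, hS =>
    exfalso
    apply hadj
    obtain ⟨h1, h2, h3⟩ := hS
    refine ⟨h1, h2, ?_⟩
    rcases h3 with h3 | h3 | h3 | ⟨d, _, h3⟩
    · exact Or.inl h3
    · exact Or.inr (Or.inl h3)
    · exact Or.inr (Or.inr (Or.inl h3))
    · rw [Finset.mem_singleton] at h3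
      cases h3

lemma ends_of_ne : ∀ j1 j2 : Fin 3, j1 ≠ j2 → ¬ (j1 = 1) → ¬ (j2 = 1) →
    (j1 = 0 ∧ j2 = 2) ∨ (j1 = 2 ∧ j2 = 0) := by decide

lemma pair_mem_of_dep {c : Fin 11} {d : Fin 7} (hd : d.val = c.val) {s : Finset V}
    (hs : (GG {Sum.inl d}).IsClique (s : Set V)) (h0 : ¬ (GG ∅).IsClique (s : Set V)) :
    Sum.inr (c, 0) ∈ s ∧ Sum.inr (c, 2) ∈ s := by
  rw [SimpleGraph.isClique_iff, Set.Pairwise] at h0
  push Not at h0
  obtain ⟨u, hu, v, hv, huv, hadj⟩ := h0
  have hS : adj {Sum.inl d} u v := hs hu hv huv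
  match u, v, hu, hv, huv, hadj, hS with
  | .inl i, .inr (c', j'), hu, hv, huv, hadj, hS =>
    obtain ⟨h1, h2⟩ := hS
    rw [Finset.mem_singleton] at h2
    cases h2
  | .inr (c', j'), .inl i, hu, hv, huv, hadj, hS =>
    obtain ⟨h1, h2⟩ := hS
    rw [Finset.mem_singleton] at h2
    cases h2
  | .inr (c1, j1), .inr (c2, j2), hu, hv, huv, hadj, hS =>
    obtain ⟨h1, h2, h3⟩ := hS
    subst h1
    have h4 : ¬ (j1 = 1) := fun h => hadj ⟨rfl, h2, Or.inl h⟩
    have h5 : ¬ (j2 = 1) := fun h => hadj ⟨rfl, h2, Or.inr (Or.inl h)⟩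
    have h6 : ¬ (7 ≤ c1.val) := fun h => hadj ⟨rfl, h2, Or.inr (Or.inr (Or.inl h))⟩
    have h7 : c1 = c := by
      rcases h3 with h3 | h3 | h3 | ⟨d', hd', h3⟩
      · exact absurd h3 h4
      · exact absurd h3 h5
      · exact absurd h3 h6
      · rw [Finset.mem_singleton] at h3
        cases h3
        exact Fin.ext (hd'.symm.trans hd)
    subst h7
    rcases ends_of_ne j1 j2 h2 h4 h5 with ⟨rfl, rfl⟩ | ⟨rfl, rfl⟩
    · exact ⟨hu, hv⟩
    · exact ⟨hv, hu⟩

/-- A slot carries the same projective point as its main vertex. -/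
lemma slot_parallel {x : V → Fin 3 → K} (hx : Exact x) (c : Fin 11) (j : Fin 3) :
    ∃ l : K, l ≠ 0 ∧ x (Sum.inr (c, j)) = l • x (Sum.inl (pt c j)) := by
  classical
  have h := hx.2 (Sum.inr (c, j))
  unfold Good at h
  push Not at h
  obtain ⟨s, hs, hne, a, ha, hsum⟩ := h
  have h0 : ¬ (GG ∅).IsClique (s : Set V) := fun h0 => hx.1 s h0 hne a ha hsum
  obtain ⟨h1, h2⟩ := pair_mem_of_eq hs h0
  have hseq : s = {Sum.inl (pt c j), Sum.inr (c, j)} := by
    ext w
    simp only [Finset.mem_insert, Finset.mem_singleton]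
    constructor
    · exact clique_eq hs h1 h2 w
    · rintro (rfl | rfl)
      · exact h1
      · exact h2
  have hne2 : (Sum.inl (pt c j) : V) ≠ Sum.inr (c, j) := by simp
  rw [hseq, Finset.sum_pair hne2] at hsum
  have ha1 := ha _ h1
  have ha2 := ha _ h2
  refine ⟨-((a (Sum.inr (c, j)))⁻¹ * a (Sum.inl (pt c j))), ?_, ?_⟩
  · rw [neg_ne_zero]
    exact mul_ne_zero (inv_ne_zero ha2) ha1
  · have h3 : a (Sum.inr (c, j)) • x (Sum.inr (c, j)) = -(a (Sum.inl (pt c j)) • x (Sum.inl (pt c j))) := by
      rw [← add_eq_zero_iff_eq_neg, add_comm]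
      exact hsum
    calc x (Sum.inr (c, j)) = (a (Sum.inr (c, j)))⁻¹ • (a (Sum.inr (c, j)) • x (Sum.inr (c, j))) := by
          rw [smul_smul, inv_mul_cancel₀ ha2, one_smul]
      _ = _ := by
          rw [h3]
          module

lemma slots_dep {x : V → Fin 3 → K} (hx : Exact x) (c : Fin 11) (hc : c.val < 7) :
    ¬ Indep K (x (Sum.inr (c, 0))) (x (Sum.inr (c, 1))) (x (Sum.inr (c, 2))) := by
  classical
  have h := hx.2 (Sum.inl ⟨c.val, hc⟩)
  unfold Good at h
  push Not at h
  obtain ⟨s, hs, hne, a, ha, hsum⟩ := h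
  have h0 : ¬ (GG ∅).IsClique (s : Set V) := fun h0 => hx.1 s h0 hne a ha hsum
  obtain ⟨h1, h2⟩ := pair_mem_of_dep (c := c) (d := ⟨c.val, hc⟩) rfl hs h0
  have hseq : s = (Finset.univ.filter (fun k : Fin 3 => Sum.inr (c, k) ∈ s)).image
      (fun k => (Sum.inr (c, k) : V)) := by
    ext w
    simp only [Finset.mem_image, Finset.mem_filter, Finset.mem_univ, true_and]
    constructor
    · intro hw
      obtain ⟨k, rfl⟩ := clique_slots hs (by decide) h1 h2 w hw
      exact ⟨k, hw, rfl⟩
    · rintro ⟨k, hk, rfl⟩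
      exact hk
  have hinj : Set.InjOn (fun k : Fin 3 => (Sum.inr (c, k) : V))
      ((Finset.univ.filter (fun k : Fin 3 => Sum.inr (c, k) ∈ s) : Finset (Fin 3)) :
        Set (Fin 3)) := by
    intro k _ k' _ h
    simpa using h
  have hsum2 : ∑ k : Fin 3, (if Sum.inr (c, k) ∈ s then a (Sum.inr (c, k)) else 0) •
      x (Sum.inr (c, k)) = 0 := by
    rw [← hsum]
    conv_rhs => rw [hseq]
    rw [Finset.sum_image hinj, Finset.sum_filter]
    apply Finset.sum_congr rfl
    intro k _
    split_ifs <;> simp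
  intro hI
  rw [Fin.sum_univ_three] at hsum2
  obtain ⟨h3, _, _⟩ := hI _ _ _ hsum2
  rw [if_pos h1] at h3
  exact ha _ h1 h3

lemma slots_indep {x : V → Fin 3 → K} (hx : Exact x) (c : Fin 11) (hc : 7 ≤ c.val) :
    Indep K (x (Sum.inr (c, 0))) (x (Sum.inr (c, 1))) (x (Sum.inr (c, 2))) := by
  classical
  intro b0 b1 b2 hrel
  by_contra hcon
  let b : Fin 3 → K := ![b0, b1, b2]
  let a : V → K := fun v => match v with
    | .inl _ => 0
    | .inr (_, k) => b k
  let s : Finset V := (Finset.univ.filter (fun k : Fin 3 => b k ≠ 0)).image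
      (fun k => (Sum.inr (c, k) : V))
  have hs : (GG ∅).IsClique (s : Set V) := by
    intro u hu v hv huv
    simp only [s, Finset.coe_image, Finset.coe_filter, Finset.mem_univ, true_and,
      Set.mem_image, Set.mem_ofPred_eq] at hu hv
    obtain ⟨k, _, rfl⟩ := hu
    obtain ⟨k', _, rfl⟩ := hv
    refine ⟨rfl, ?_, Or.inr (Or.inr (Or.inl hc))⟩
    rintro rfl
    exact huv rfl
  have hne : s.Nonempty := by
    rw [Finset.image_nonempty]
    by_contra h
    rw [Finset.not_nonempty_iff_eq_empty, Finset.filter_eq_empty_iff] at h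
    apply hcon
    have h0 := h (Finset.mem_univ 0)
    have h1 := h (Finset.mem_univ 1)
    have h2 := h (Finset.mem_univ 2)
    simp only [b, not_not] at h0 h1 h2
    exact ⟨h0, h1, h2⟩
  have ha : ∀ i ∈ s, a i ≠ 0 := by
    intro i hi
    simp only [s, Finset.mem_image, Finset.mem_filter, Finset.mem_univ, true_and] at hi
    obtain ⟨k, hk, rfl⟩ := hi
    exact hk
  apply hx.1 s hs hne a ha
  have hinj : Set.InjOn (fun k : Fin 3 => (Sum.inr (c, k) : V))
      ((Finset.univ.filter (fun k : Fin 3 => b k ≠ 0) : Finset (Fin 3)) : Set (Fin 3)) := by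
    intro k _ k' _ h
    simpa using h
  refine Eq.trans ?_ hrel
  rw [Finset.sum_image hinj, Finset.sum_filter]
  have h3 : ∀ k : Fin 3, (if b k ≠ 0 then a (Sum.inr (c, k)) • x (Sum.inr (c, k)) else 0)
      = b k • x (Sum.inr (c, k)) := by
    intro k
    split_ifs with h
    · rfl
    · rw [not_not] at h
      rw [h, zero_smul]
  rw [Finset.sum_congr rfl (fun k _ => h3 k), Fin.sum_univ_three]
  rfl

lemma indep_smul {M : Type} [AddCommGroup M] [Module K M] {u v w u' v' w' : M} {l m n : K}
    (hl : l ≠ 0) (hm : m ≠ 0) (hn : n ≠ 0) (hu : u' = l • u) (hv : v' = m • v) (hw : w' = n • w) :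
    Indep K u' v' w' ↔ Indep K u v w := by
  subst hu hv hw
  constructor
  · intro h a b c hrel
    have := h (a * l⁻¹) (b * m⁻¹) (c * n⁻¹) (by
      rw [← hrel, smul_smul, smul_smul, smul_smul, mul_assoc, mul_assoc, mul_assoc,
        inv_mul_cancel₀ hl, inv_mul_cancel₀ hm, inv_mul_cancel₀ hn, mul_one, mul_one, mul_one])
    simpa [hl, hm, hn] using this
  · intro h a b c hrel
    have := h (a * l) (b * m) (c * n) (by rw [← hrel, smul_smul, smul_smul, smul_smul])
    simpa [hl, hm, hn] using this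

lemma not_exact (h2 : (2 : K) ≠ 0) (x : V → Fin 3 → K) : ¬ Exact x := by
  intro hx
  have hne : ∀ i : Fin 7, x (Sum.inl i) ≠ 0 := by
    intro i h
    apply hx.1 {Sum.inl i} (by simp) (by simp) (fun _ => 1) (by simp)
    simp [h]
  have key : ∀ c : Fin 11, Indep K (x (Sum.inr (c, 0))) (x (Sum.inr (c, 1))) (x (Sum.inr (c, 2)))
      ↔ Indep K (x (Sum.inl (pt c 0))) (x (Sum.inl (pt c 1))) (x (Sum.inl (pt c 2))) := by
    intro c
    obtain ⟨l, hl, h3⟩ := slot_parallel hx c 0
    obtain ⟨m, hm, h4⟩ := slot_parallel hx c 1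
    obtain ⟨n, hn, h5⟩ := slot_parallel hx c 2
    exact indep_smul hl hm hn h3 h4 h5
  have dep : ∀ c : Fin 11, c.val < 7 →
      ¬ Indep K (x (Sum.inl (pt c 0))) (x (Sum.inl (pt c 1))) (x (Sum.inl (pt c 2))) := by
    intro c hc
    rw [← key]
    exact slots_dep hx c hc
  have ind : ∀ c : Fin 11, 7 ≤ c.val →
      Indep K (x (Sum.inl (pt c 0))) (x (Sum.inl (pt c 1))) (x (Sum.inl (pt c 2))) := by
    intro c hc
    rw [← key]
    exact slots_indep hx c hc
  exact fano_algebra (x (Sum.inl 0)) (x (Sum.inl 1)) (x (Sum.inl 2)) (x (Sum.inl 3))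
    (x (Sum.inl 4)) (x (Sum.inl 5)) (x (Sum.inl 6)) h2 (hne 4) (hne 5) (hne 6)
    (ind 7 (by decide)) (ind 8 (by decide)) (ind 9 (by decide)) (ind 10 (by decide))
    (dep 0 (by decide)) (dep 1 (by decide)) (dep 2 (by decide)) (dep 3 (by decide))
    (dep 4 (by decide)) (dep 5 (by decide)) (dep 6 (by decide))

end NoExact

/-! ### The Fano plane over the field with two elements -/

/-- The seven points of the Fano plane. -/
def fano : Fin 7 → Fin 3 → ZMod 2 :=
  ![![1, 0, 0], ![0, 1, 0], ![0, 0, 1], ![1, 1, 1], ![1, 1, 0], ![1, 0, 1], ![0, 1, 1]]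

/-- The Fano configuration. -/
def fanoConf : V → Fin 3 → ZMod 2
  | .inl i => fano i
  | .inr (c, j) => fano (pt c j)

lemma fano_ne : ∀ i, fano i ≠ 0 := by decide

/-- No nonempty set of slots forming a clique sums to zero. -/
def FanoGood (c : Fin 11) (t : Finset (Fin 3)) : Prop :=
  t ≠ ∅ → (∀ j ∈ t, ∀ j' ∈ t, j ≠ j' → (j = 1 ∨ j' = 1 ∨ 7 ≤ c.val)) →
    ∑ k ∈ t, fano (pt c k) ≠ 0

instance (c : Fin 11) (t : Finset (Fin 3)) : Decidable (FanoGood c t) := by
  unfold FanoGood
  infer_instance

lemma fano_good : ∀ (c : Fin 11) (t : Finset (Fin 3)), FanoGood c t := by decide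

lemma fano_dep : ∀ (c : Fin 11), c.val < 7 → ∑ k : Fin 3, fano (pt c k) = 0 := by decide

lemma zmod2_eq_one : ∀ a : ZMod 2, a ≠ 0 → a = 1 := by decide

lemma fanoConf_exact : Exact fanoConf := by
  classical
  constructor
  · intro s hs hne a ha
    have h1 : ∑ i ∈ s, a i • fanoConf i = ∑ i ∈ s, fanoConf i := by
      apply Finset.sum_congr rfl
      intro i hi
      rw [zmod2_eq_one _ (ha i hi), one_smul]
    rw [h1]
    obtain ⟨u, hu⟩ := hne
    match u, hu with
    | .inl i, hu =>
      have hseq : s = {Sum.inl i} := by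
        ext w
        rw [Finset.mem_singleton]
        constructor
        · intro hw
          by_contra hcon
          have h2 : adj ∅ w (Sum.inl i) := hs hw hu hcon
          match w, h2 with
          | .inr (c, j), h2 => exact absurd h2.2 (Finset.notMem_empty _)
        · rintro rfl
          exact hu
      rw [hseq, Finset.sum_singleton]
      exact fano_ne i
    | .inr (c, j), hu =>
      have hslot : ∀ w ∈ s, ∃ k, w = Sum.inr (c, k) := by
        intro w hw
        by_cases hcon : w = Sum.inr (c, j)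
        · exact ⟨j, hcon⟩
        · have h2 : adj ∅ w (Sum.inr (c, j)) := hs hw hu hcon
          match w, h2 with
          | .inl i, h2 => exact absurd h2.2 (Finset.notMem_empty _)
          | .inr (c', k), h2 =>
            obtain ⟨rfl, _⟩ := h2
            exact ⟨k, rfl⟩
      have hseq : s = (Finset.univ.filter (fun k : Fin 3 => Sum.inr (c, k) ∈ s)).image
          (fun k => (Sum.inr (c, k) : V)) := by
        ext w
        simp only [Finset.mem_image, Finset.mem_filter, Finset.mem_univ, true_and]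
        constructor
        · intro hw
          obtain ⟨k, rfl⟩ := hslot w hw
          exact ⟨k, hw, rfl⟩
        · rintro ⟨k, hk, rfl⟩
          exact hk
      have hinj : Set.InjOn (fun k : Fin 3 => (Sum.inr (c, k) : V))
          ((Finset.univ.filter (fun k : Fin 3 => Sum.inr (c, k) ∈ s) : Finset (Fin 3)) :
            Set (Fin 3)) := by
        intro k _ k' _ h
        simpa using h
      rw [hseq, Finset.sum_image hinj]
      apply fano_good c
      · exact Finset.ne_empty_of_mem (a := j) (by simpa using hu)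
      · intro k hk k' hk' hkk
        simp only [Finset.mem_filter, Finset.mem_univ, true_and] at hk hk'
        have h2 : adj ∅ (Sum.inr (c, k)) (Sum.inr (c, k')) := hs hk hk' (by simpa using hkk)
        obtain ⟨_, _, h3⟩ := h2
        rcases h3 with h3 | h3 | h3 | ⟨d, _, h3⟩
        · exact Or.inl h3
        · exact Or.inr (Or.inl h3)
        · exact Or.inr (Or.inr h3)
        · exact absurd h3 (Finset.notMem_empty _)
  · rintro (d | ⟨c, j⟩) h
    · let c : Fin 11 := ⟨d.val, by omega⟩
      have hinj : Function.Injective (fun k : Fin 3 => (Sum.inr (c, k) : V)) := by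
        intro k k' h
        simpa using h
      apply h (Finset.univ.image (fun k : Fin 3 => (Sum.inr (c, k) : V)))
        ?_ (by simp) (fun _ => 1) (by simp)
      · rw [Finset.sum_image (fun k _ k' _ h => hinj h)]
        simp only [one_smul]
        exact fano_dep c d.isLt
      · intro u hu v hv huv
        simp only [Finset.coe_image, Finset.coe_univ, Set.image_univ, Set.mem_range] at hu hv
        obtain ⟨k, rfl⟩ := hu
        obtain ⟨k', rfl⟩ := hv
        refine ⟨rfl, ?_, Or.inr (Or.inr (Or.inr ⟨d, rfl, Finset.mem_singleton_self _⟩))⟩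
        rintro rfl
        exact huv rfl
    · have hne2 : (Sum.inl (pt c j) : V) ≠ Sum.inr (c, j) := by simp
      apply h {Sum.inl (pt c j), Sum.inr (c, j)} ?_ (by simp) (fun _ => 1) (by simp)
      · rw [Finset.sum_pair hne2, one_smul, one_smul]
        change fano (pt c j) + fano (pt c j) = 0
        ext k
        exact CharTwo.add_self_eq_zero _
      · intro u hu v hv huv
        simp only [Finset.coe_insert, Finset.coe_singleton, Set.mem_insert_iff,
          Set.mem_singleton_iff] at hu hv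
        change adj _ u v
        rcases hu with rfl | rfl <;> rcases hv with rfl | rfl
        · exact absurd rfl huv
        · exact ⟨rfl, Finset.mem_singleton_self _⟩
        · exact ⟨rfl, Finset.mem_singleton_self _⟩
        · exact absurd rfl huv

/-! ### The main theorem -/

/-- There is a graph `G` on forty vertices such that no polynomial in two variables interpolates,
over all finite fields, the characteristic polynomials of the `q`-deformations of the clique complex
of `G`. -/
theorem result : ∃ G : SimpleGraph (Fin 40), ¬ Interpolated (cliqueComplex G) := by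
  classical
  by_contra hcon
  push Not at hcon
  let e : V ≃ Fin 40 := Fintype.equivFinOfCardEq (by simp [V])
  have hS : ∀ S : Finset T, Interpolated (cliqueComplex ((GG S).comap e.symm)) :=
    fun S => hcon _
  choose P hP using hS
  let R : ℂ[X] := ∑ S : Finset T, (-1) ^ S.card * (P S).eval (X ^ 3)
  have hR : ∀ (K : Type) [Field K] [Finite K],
      R.eval (Nat.card K : ℂ) = (Nat.card {x : V → Fin 3 → K // Exact x} : ℂ) := by
    intro K _ _
    have h1 := signed_sum (K := K)
    have h2 : (Nat.card {x : V → Fin 3 → K // Exact x} : ℂ) =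
        ((Nat.card {x : V → Fin 3 → K // Exact x} : ℤ) : ℂ) := by push_cast; rfl
    rw [h2, ← h1]
    push_cast
    rw [Polynomial.eval_finsetSum]
    apply Finset.sum_congr rfl
    intro S _
    rw [Polynomial.eval_mul, Polynomial.eval_pow, Polynomial.eval_neg, Polynomial.eval_one]
    congr 1
    have h3 := hP S K
    have h4 := congrArg (Polynomial.eval ((Nat.card K : ℂ) ^ 3)) h3
    have h5 : Polynomial.eval ((Nat.card K : ℂ) ^ 3)
        ((charPoly (deformation (cliqueComplex ((GG S).comap e.symm)) K)).map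
          (Int.castRingHom ℂ)) =
        (((charPoly (deformation (cliqueComplex ((GG S).comap e.symm)) K)).eval
          ((Nat.card K : ℤ) ^ 3) : ℤ) : ℂ) := by
      have : ((Nat.card K : ℂ) ^ 3) = Int.castRingHom ℂ ((Nat.card K : ℤ) ^ 3) := by simp
      rw [this, Polynomial.eval_map_apply]
      rfl
    rw [h5, card_good_fin, card_good_congr e (GG S)] at h4
    push_cast at h4
    rw [h4]
    have h6 : ((Nat.card K : ℂ) ^ 3) = Polynomial.evalRingHom (Nat.card K : ℂ) (X ^ 3) := by
      simp
    rw [h6, Polynomial.eval_map_apply]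
    rfl
  have hzero : R = 0 := by
    apply Polynomial.eq_zero_of_infinite_isRoot
    have hinf : Set.Infinite {p : ℕ | p.Prime ∧ 2 < p} := by
      have h1 := Nat.infinite_setOfPred_prime
      have h2 : {p : ℕ | p.Prime ∧ 2 < p} = {p : ℕ | p.Prime} \ (Finset.range 3 : Set ℕ) := by
        ext p
        simp
        omega
      rw [h2]
      exact h1.sdiff (Finset.finite_toSet _)
    apply Set.Infinite.mono (s := (fun p : ℕ => (p : ℂ)) '' {p : ℕ | p.Prime ∧ 2 < p})
    · rintro _ ⟨p, ⟨hp, hp2⟩, rfl⟩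
      have : Fact p.Prime := ⟨hp⟩
      have h1 := hR (ZMod p)
      rw [Nat.card_zmod] at h1
      have h2 : (2 : ZMod p) ≠ 0 := by
        intro h
        have h3 : ((2 : ℕ) : ZMod p) = 0 := by exact_mod_cast h
        rw [ZMod.natCast_eq_zero_iff] at h3
        have := Nat.le_of_dvd (by norm_num) h3
        omega
      have h3 : IsEmpty {x : V → Fin 3 → ZMod p // Exact x} :=
        ⟨fun x => not_exact h2 x.1 x.2⟩
      rw [Nat.card_of_isEmpty] at h1
      simpa [Polynomial.IsRoot] using h1
    · exact hinf.image (fun a _ b _ h => by exact_mod_cast h)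
  have h1 := hR (ZMod 2)
  rw [hzero, Polynomial.eval_zero] at h1
  have h2 : 0 < Nat.card {x : V → Fin 3 → ZMod 2 // Exact x} := by
    have : Nonempty {x : V → Fin 3 → ZMod 2 // Exact x} := ⟨⟨fanoConf, fanoConf_exact⟩⟩
    exact Nat.card_pos
  have h3 : Nat.card {x : V → Fin 3 → ZMod 2 // Exact x} = 0 := by exact_mod_cast h1.symm
  omega


end Pool.Agent.Results.MP_6fdec2_co.CliqueFano
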